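import Pool.Agent.Run7.h81.LW.CM

/-!
# Piece ALPHA: charging the new edges to the incidences between `XU` and `P`
-/

set_option autoImplicit false
set_option linter.all false

namespace Run7.h81.LW
open Classical Run7.h520.LW

theorem mem_nic {V : Type} [DecidableEq V] {G : Str V} {X C : Finset V} {p : V}
    {l : ℕ × List V} (hp : p ∈ X) (hpC : p ∉ C) (hl : l ∈ lin C) (hlX : l ∉ lin X)
    (ho : G.On p l) : (p, l) ∈ G.nic X C := by
  unfold Str.nic
  rw [Finset.mem_filter]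
  refine ⟨Str.mem_ic.2 ⟨Finset.mem_union_left _ hp, lin_mono Finset.subset_union_right hl, ho⟩,
    fun h => hlX (Str.mem_ic.1 h).2.1, fun h => hpC (Str.mem_ic.1 h).1⟩

theorem Nw_small (j : ℕ) : 16 * ((N j : ℝ) * w j) ≤ a j := by
  have h1 := N_small j
  have h2 := w_le j
  have h3 := a_ge j
  have h4 := q_pos j
  have h5 : (0 : ℝ) ≤ N j := Nat.cast_nonneg _
  have h6 : (N j : ℝ) * w j ≤ N j * (2 * q (j + 1)) := mul_le_mul_of_nonneg_left h2 h5
  nlinarith

/-- charging -/
theorem charge {E : Finset (ℕ × ℕ)} {S : Finset (ℕ × (ℕ × List ℕ))}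
    {c : ℕ × ℕ → ℕ × (ℕ × List ℕ)} (hc : ∀ e ∈ E, c e ∈ S)
    (hF : ∀ n ∈ S, 16 * (((E.filter fun e => c e = n).card : ℝ) * w n.2.1) ≤ a n.2.1) :
    2 * ∑ e ∈ E, w (c e).2.1 ≤ (∑ n ∈ S, a n.2.1) / 8 := by
  have h1 : ∑ e ∈ E, w (c e).2.1 = ∑ n ∈ S, ∑ e ∈ E.filter (fun e => c e = n), w (c e).2.1 :=
    (Finset.sum_fiberwise_of_maps_to hc _).symm
  have h2 : ∀ n ∈ S, ∑ e ∈ E.filter (fun e => c e = n), w (c e).2.1 ≤ a n.2.1 / 16 := by
    intro n hn
    have h3 : ∑ e ∈ E.filter (fun e => c e = n), w (c e).2.1 =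
        ∑ e ∈ E.filter (fun e => c e = n), w n.2.1 := by
      refine Finset.sum_congr rfl fun e he => ?_
      rw [(Finset.mem_filter.1 he).2]
    rw [h3, Finset.sum_const, nsmul_eq_mul]
    have := hF n hn
    linarith
  rw [h1]
  have h4 := Finset.sum_le_sum h2
  rw [← Finset.sum_div] at h4
  linarith

theorem ALPHA : S_EMB → S_REL → S_CM → S_ALPHA := by
  intro _ hREL hCM M Ω b0 h T U Q B A P W D σ τ lp hc XD XU hfit
  have hUP : XU ∩ P = XU ∩ Q := by
    ext x
    simp only [Finset.mem_inter]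
    constructor
    · rintro ⟨h1, h2⟩
      refine ⟨h1, ?_⟩
      rw [← hc.UP]
      exact Finset.mem_inter.2 ⟨hfit.sU h1, h2⟩
    · rintro ⟨h1, h2⟩
      exact ⟨h1, Cfg.QP hc h2⟩
  obtain ⟨r1, r2⟩ := hREL hc.rich.amb hfit.pU hc.cP
  rw [hUP] at r1 r2
  set E := (XD ×ˢ XU).filter (fun e => nE M T U B A σ e.1 e.2) with hE
  set c : ℕ × ℕ → ℕ × (ℕ × List ℕ) := fun e => (e.2, pre (mis (lp e.2) XU) (lp e.2)) with hcdef
  -- the basic facts for a new edge
  have basic : ∀ e ∈ E, e.1 ∈ XD ∧ e.2 ∈ XU ∧ ∃ t ∈ T, ∃ x ∈ A ∩ B, x ∉ U ∧ e.2 ∈ A ∩ U ∧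
      e.2 ∉ B ∧ M.R e.2 x ∧ σ t x = e.1 := by
    intro e he
    rw [hE, Finset.mem_filter, Finset.mem_product] at he
    exact ⟨he.1.1, he.1.2, he.2⟩
  have hmem : ∀ e ∈ E, c e ∈ M.nic XU P := by
    intro e he
    obtain ⟨h1, h2, t, ht, x, hx, hxU, hp, hpB, hR, hσ⟩ := basic e he
    obtain ⟨-, hop, hoy, hlP, ⟨z, hz, hzU⟩, hlQ⟩ := hc.lp_ e.2 hp hpB x hx hxU hR
    have hpU : e.2 ∈ U := (Finset.mem_inter.1 hp).2
    have hself : pre (lp e.2).1 (lp e.2) = lp e.2 := pre_self hop.2.1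
    have hex : ∃ x ∈ (pre (lp e.2).1 (lp e.2)).2, x ∉ XU := by
      rw [hself]; exact ⟨z, hz, fun h => hzU (hfit.sU h)⟩
    have hle : mis (lp e.2) XU ≤ (lp e.2).1 := mis_le hex
    obtain ⟨v, hv, hvn⟩ := mis_mem hex
    refine mem_nic h2 (Cfg.notP hc hpU hpB) ((hop.pre hle).isLn fun x hx => hlP x (pre_mem hx))
      (fun hl => hvn ((mem_lin.1 hl).2.2 v hv)) (hop.pre hle)
  have hcost : cost M T U B A σ lp XD XU = 2 * ∑ e ∈ E, w (c e).2.1 := rfl
  have hF : ∀ n ∈ M.nic XU P,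
      16 * (((E.filter fun e => c e = n).card : ℝ) * w n.2.1) ≤ a n.2.1 := by
    intro n _
    rcases (E.filter fun e => c e = n).eq_empty_or_nonempty with hemp | ⟨e0, he0⟩
    · rw [hemp, Finset.card_empty, Nat.cast_zero, zero_mul, mul_zero]
      exact (a_pos _).le
    rw [Finset.mem_filter] at he0
    obtain ⟨he0, hn⟩ := he0
    obtain ⟨h1, h2, t, ht, x, hx, hxU, hp, hpB, hR, hσ⟩ := basic e0 he0
    obtain ⟨hh, hop, hoy, hlP, ⟨z, hz, hzU⟩, hlQ⟩ := hc.lp_ e0.2 hp hpB x hx hxU hR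
    have hpU : e0.2 ∈ U := (Finset.mem_inter.1 hp).2
    have hself : pre (lp e0.2).1 (lp e0.2) = lp e0.2 := pre_self hop.2.1
    have hex : ∃ x ∈ (pre (lp e0.2).1 (lp e0.2)).2, x ∉ XU := by
      rw [hself]; exact ⟨z, hz, fun h => hzU (hfit.sU h)⟩
    have hle : mis (lp e0.2) XU ≤ (lp e0.2).1 := mis_le hex
    obtain ⟨v, hv, hvn⟩ := mis_mem hex
    subst hn
    have hinj : ∀ e ∈ E.filter (fun e => c e = c e0), ∀ e' ∈ E.filter (fun e => c e = c e0),
        e.1 = e'.1 → e = e' := by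
      intro e he e' he' h
      have h3 : e.2 = e0.2 := congrArg Prod.fst (Finset.mem_filter.1 he).2
      have h4 : e'.2 = e0.2 := congrArg Prod.fst (Finset.mem_filter.1 he').2
      exact Prod.ext h (h3.trans h4.symm)
    have hcard : (E.filter fun e => c e = c e0).card =
        ((E.filter fun e => c e = c e0).image Prod.fst).card := by
      rw [Finset.card_image_of_injOn]
      intro e he e' he' h
      exact hinj e he e' he' h
    rw [hcard]
    show 16 * ((((E.filter fun e => c e = c e0).image Prod.fst).card : ℝ) *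
      w (mis (lp e0.2) XU)) ≤ a (mis (lp e0.2) XU)
    rcases hle.lt_or_eq with hlt | heq
    · -- the line is in `Q`
      set m := pre (mis (lp e0.2) XU) (lp e0.2) with hm
      set m' : ℕ × List ℕ := (m.1, m.2.map τ) with hm'
      have hvQ : v ∈ Q := hlQ _ hlt v hv
      have hτv : τ v ∉ XD := fun h => hvn ((hfit.fit v hvQ).2 h)
      have hlt' : (M.pts m' XD).card < N m'.1 := by
        refine hfit.pD.pts_lt ?_ ⟨τ v, List.mem_map.2 ⟨v, hv, rfl⟩, hτv⟩
        intro x hx
        obtain ⟨y, hy, rfl⟩ := List.mem_map.1 hx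
        have hy' : y ∈ P := Cfg.QP hc (hlQ _ hlt y hy)
        have : τ y ∈ P := by
          rw [← hc.τP]; exact Finset.mem_image_of_mem _ hy'
        exact hc.cP.sub (Finset.mem_coe.2 this)
      have hsub : (E.filter fun e => c e = c e0).image Prod.fst ⊆ M.pts m' XD := by
        intro y hy
        obtain ⟨e, he, rfl⟩ := Finset.mem_image.1 hy
        rw [Finset.mem_filter] at he
        obtain ⟨he, hce⟩ := he
        have he2 : e.2 = e0.2 := congrArg Prod.fst hce
        obtain ⟨g1, g2, t', ht', x', hx', hxU', hp', hpB', hR', hσ'⟩ := basic e he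
        rw [he2] at g2 hp' hpB' hR'
        obtain ⟨-, -, hoy', -, -, -⟩ := hc.lp_ e0.2 hp' hpB' x' hx' hxU' hR'
        rw [Str.mem_pts]
        refine ⟨g1, ?_⟩
        have h5 : M.On x' m := hoy'.pre hle
        have h6 : ∀ y ∈ m.2, y ∈ P := fun y hy => Cfg.QP hc (hlQ _ hlt y hy)
        have h7 := ((hc.emb t' ht').on x' (hc.BW (Finset.mem_inter.1 hx').2) m
          fun y hy => hc.PW (h6 y hy)).2 h5
        rw [hσ'] at h7
        have h8 : m.2.map (σ t') = m.2.map τ :=
          List.map_congr_left fun y hy => hc.σP t' ht' y (h6 y hy)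
        rw [h8] at h7
        exact h7
      have h9 := Finset.card_le_card hsub
      have h10 : ((((E.filter fun e => c e = c e0).image Prod.fst).card : ℕ) : ℝ) ≤
          N (mis (lp e0.2) XU) := by
        exact_mod_cast h9.trans hlt'.le
      have h11 := Nw_small (mis (lp e0.2) XU)
      have h12 := w_pos (mis (lp e0.2) XU)
      have h13 := mul_le_mul_of_nonneg_right h10 h12.le
      linarith
    · -- the line `lp p`
      have hsub : (E.filter fun e => c e = c e0).image Prod.fst ⊆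
          (T ×ˢ A).image fun z => σ z.1 z.2 := by
        intro y hy
        obtain ⟨e, he, rfl⟩ := Finset.mem_image.1 hy
        rw [Finset.mem_filter] at he
        obtain ⟨he, hce⟩ := he
        obtain ⟨g1, g2, t', ht', x', hx', hxU', hp', hpB', hR', hσ'⟩ := basic e he
        exact Finset.mem_image.2 ⟨(t', x'), Finset.mem_product.2
          ⟨ht', (Finset.mem_inter.1 hx').1⟩, hσ'⟩
      have h9 := (Finset.card_le_card hsub).trans Finset.card_image_le
      rw [Finset.card_product] at h9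
      have h9' := h9.trans (Nat.mul_le_mul_left T.card hc.card)
      have h10 : ((((E.filter fun e => c e = c e0).image Prod.fst).card : ℕ) : ℝ) ≤
          (T.card : ℝ) * b0 := by
        exact_mod_cast h9'
      have h11 := hc.hw (mis (lp e0.2) XU) (by omega)
      have h12 := w_pos (mis (lp e0.2) XU)
      have h13 := mul_le_mul_of_nonneg_right h10 h12.le
      linarith
  have hfin := charge hmem hF
  rw [← hcost] at hfin
  have hapos : 0 ≤ ∑ p ∈ M.nic XU P, a p.2.1 := Finset.sum_nonneg fun _ _ => (a_pos _).le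
  refine ⟨by linarith, by linarith, fun hn => ?_⟩
  have hn' : ¬ XU ⊆ P := by
    intro h
    refine hn fun x hx => ?_
    have : x ∈ XU ∩ Q := by rw [← hUP]; exact Finset.mem_inter.2 ⟨hx, h hx⟩
    exact (Finset.mem_inter.1 this).2
  have := r2 hn'
  linarith

end Run7.h81.LW
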