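import Pool.Agent.Run7.h520.LW.I2

/-!
# Piece CM: the common lines of the end points of a new edge
-/

set_option autoImplicit false
set_option linter.all false

namespace Run7.h81.LW
open Classical Run7.h520.LW

theorem pre_self {V : Type} {l : ℕ × List V} (h : l.2.length = g l.1) : pre l.1 l = l := by
  unfold pre
  rw [List.take_of_length_le (le_of_eq h)]

theorem mis_le {V : Type} {l : ℕ × List V} {X : Finset V} {i : ℕ}
    (h : ∃ x ∈ (pre i l).2, x ∉ X) : mis l X ≤ i := by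
  unfold mis; exact Nat.sInf_le h

theorem mis_mem {V : Type} {l : ℕ × List V} {X : Finset V} {i : ℕ}
    (h : ∃ x ∈ (pre i l).2, x ∉ X) : ∃ x ∈ (pre (mis l X) l).2, x ∉ X := by
  have : mis l X ∈ {i | ∃ x ∈ (pre i l).2, x ∉ X} := by
    unfold mis
    exact Nat.sInf_mem ⟨i, h⟩
  exact this

theorem mis_lt {V : Type} {l : ℕ × List V} {X : Finset V} {i : ℕ}
    (h : i < mis l X) : ∀ x ∈ (pre i l).2, x ∈ X := by
  by_contra hc
  push Not at hc
  have := mis_le hc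
  omega

theorem pre_mem {V : Type} {l : ℕ × List V} {i : ℕ} {x : V} (h : x ∈ (pre i l).2) : x ∈ l.2 :=
  List.mem_of_mem_take h

/-- facts on the configuration -/
theorem Cfg.pcQ {M : Str ℕ} {Ω : Set ℕ} {b0 h : ℕ} {T U Q B A P W D : Finset ℕ}
    {σ : ℕ → ℕ → ℕ} {τ : ℕ → ℕ} {lp : ℕ → ℕ × List ℕ}
    (hc : Cfg M Ω b0 h T U Q B A P W D σ τ lp) : M.PC Q Ω := by
  have := hc.cU.1.inter hc.cB.1
  rwa [hc.UB] at this

theorem Cfg.QP {M : Str ℕ} {Ω : Set ℕ} {b0 h : ℕ} {T U Q B A P W D : Finset ℕ}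
    {σ : ℕ → ℕ → ℕ} {τ : ℕ → ℕ} {lp : ℕ → ℕ × List ℕ}
    (hc : Cfg M Ω b0 h T U Q B A P W D σ τ lp) : Q ⊆ P := by
  rw [← hc.UP]; exact Finset.inter_subset_right

theorem Cfg.notQ {M : Str ℕ} {Ω : Set ℕ} {b0 h : ℕ} {T U Q B A P W D : Finset ℕ}
    {σ : ℕ → ℕ → ℕ} {τ : ℕ → ℕ} {lp : ℕ → ℕ × List ℕ}
    (hc : Cfg M Ω b0 h T U Q B A P W D σ τ lp) {p : ℕ} (h : p ∉ B) : p ∉ Q := by
  rw [← hc.UB, Finset.mem_inter]; exact fun h' => h h'.2

theorem Cfg.notP {M : Str ℕ} {Ω : Set ℕ} {b0 h : ℕ} {T U Q B A P W D : Finset ℕ}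
    {σ : ℕ → ℕ → ℕ} {τ : ℕ → ℕ} {lp : ℕ → ℕ × List ℕ}
    (hc : Cfg M Ω b0 h T U Q B A P W D σ τ lp) {p : ℕ} (hU : p ∈ U) (h : p ∉ B) : p ∉ P := by
  intro h'
  have h1 : p ∈ U ∩ P := Finset.mem_inter.2 ⟨hU, h'⟩
  rw [hc.UP] at h1
  exact Cfg.notQ hc h h1

theorem filter_eq {M : Str ℕ} {Ω : Set ℕ} {b0 h : ℕ} {T U Q B A P W D : Finset ℕ}
    {σ : ℕ → ℕ → ℕ} {τ : ℕ → ℕ} {lp : ℕ → ℕ × List ℕ}
    (hc : Cfg M Ω b0 h T U Q B A P W D σ τ lp)
    (XU : Finset ℕ) (hXU : XU ⊆ U) (p : ℕ) (hp : p ∈ A ∩ U) (hpB : p ∉ B) (y : ℕ)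
    (hy : y ∈ A ∩ B) (hyU : y ∉ U) (hR : M.R p y) :
    (lin (XU ∩ Q)).filter (fun l => M.On p l ∧ M.On y l) =
      (Finset.range (mis (lp p) XU)).image fun i => pre i (lp p) := by
  obtain ⟨-, hop, hoy, hlP, ⟨z, hz, hzU⟩, hlQ⟩ := hc.lp_ p hp hpB y hy hyU hR
  have hpU : p ∈ U := (Finset.mem_inter.1 hp).2
  have hpΩ : p ∈ Ω := hc.cU.sub (Finset.mem_coe.2 hpU)
  have hself : pre (lp p).1 (lp p) = lp p := pre_self hop.2.1
  have hex : ∃ x ∈ (pre (lp p).1 (lp p)).2, x ∉ XU := by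
    rw [hself]; exact ⟨z, hz, fun h => hzU (hXU h)⟩
  have hle : mis (lp p) XU ≤ (lp p).1 := mis_le hex
  have hmem := mis_mem hex
  have hQ1 := fun j => (Cfg.pcQ hc).g2 p hpΩ (Cfg.notQ hc hpB) j
  have hP1 := fun j => hc.cP.1.g2 p hpΩ (Cfg.notP hc hpU hpB) j
  have hlinQ : ∀ i < (lp p).1, pre i (lp p) ∈ lin Q := fun i hi =>
    (hop.pre hi.le).isLn (hlQ i hi)
  ext l
  rw [Finset.mem_filter, Finset.mem_image]
  constructor
  · rintro ⟨hl, hlp, hly⟩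
    have hlXU : l ∈ lin XU := lin_mono Finset.inter_subset_left hl
    have hlQ' : l ∈ lin Q := lin_mono Finset.inter_subset_right hl
    by_cases hj : l.1 < mis (lp p) XU
    · refine ⟨l.1, Finset.mem_range.2 hj, ?_⟩
      have hj' : l.1 < (lp p).1 := lt_of_lt_of_le hj hle
      exact Str.nl_unique (hQ1 l.1) (hlinQ _ hj') rfl (hop.pre hj'.le) hlQ' rfl hlp
    · exfalso
      have hj' : mis (lp p) XU ≤ l.1 := not_lt.1 hj
      obtain ⟨x, hx, hxn⟩ := hmem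
      have h1 : pre (mis (lp p) XU) l ∈ lin XU := pre_lin hlXU hj'
      have h2 : pre (mis (lp p) XU) l ∈ lin Q := pre_lin hlQ' hj'
      have h3 : M.On p (pre (mis (lp p) XU) l) := hlp.pre hj'
      have key : pre (mis (lp p) XU) l = pre (mis (lp p) XU) (lp p) := by
        rcases hle.lt_or_eq with hlt | heq
        · exact Str.nl_unique (hQ1 _) h2 rfl h3 (hlinQ _ hlt) rfl (hop.pre hlt.le)
        · have h4 : pre (mis (lp p) XU) (lp p) = lp p := by rw [heq, hself]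
          rw [h4]
          exact Str.nl_unique (hP1 _) (lin_mono (Cfg.QP hc) h2) rfl h3 (hop.isLn hlP) heq.symm hop
      rw [← key] at hx
      exact hxn ((mem_lin.1 h1).2.2 x hx)
  · rintro ⟨i, hi, rfl⟩
    rw [Finset.mem_range] at hi
    have hi' : i < (lp p).1 := lt_of_lt_of_le hi hle
    refine ⟨?_, hop.pre hi'.le, hoy.pre hi'.le⟩
    exact (hop.pre hi'.le).isLn fun x hx => Finset.mem_inter.2 ⟨mis_lt hi x hx, hlQ i hi' x hx⟩

theorem CM : S_CM := by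
  intro M Ω b0 h T U Q B A P W D σ τ lp hc XU hXU p hp hpB y hy hyU hR
  have hf := filter_eq hc XU hXU p hp hpB y hy hyU hR
  obtain ⟨-, hop, hoy, hlP, ⟨z, hz, hzU⟩, hlQ⟩ := hc.lp_ p hp hpB y hy hyU hR
  have hself : pre (lp p).1 (lp p) = lp p := pre_self hop.2.1
  have hex : ∃ x ∈ (pre (lp p).1 (lp p)).2, x ∉ XU := by
    rw [hself]; exact ⟨z, hz, fun h => hzU (hXU h)⟩
  have hle : mis (lp p) XU ≤ (lp p).1 := mis_le hex
  have hs : ∑ l ∈ (Finset.range (mis (lp p) XU)).image (fun i => pre i (lp p)), q (l.1 + 1) =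
      ∑ i ∈ Finset.range (mis (lp p) XU), q (i + 1) := by
    refine Finset.sum_image ?_
    intro i _ j _ h
    exact congrArg Prod.fst h
  have hw := w_sum (mis (lp p) XU)
  have h1 : M.cm (XU ∩ Q) (p, y) = ∑ i ∈ Finset.range (mis (lp p) XU), q (i + 1) := by
    unfold Str.cm
    rw [← hs]
    refine Finset.sum_congr ?_ fun _ _ => rfl
    rw [← hf]
  have h2 : M.cm (XU ∩ Q) (y, p) = ∑ i ∈ Finset.range (mis (lp p) XU), q (i + 1) := by
    rw [← h1]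
    unfold Str.cm
    refine Finset.sum_congr ?_ fun _ _ => rfl
    refine Finset.filter_congr ?_
    intro l _
    exact and_comm
  exact ⟨hle, by rw [h1]; exact hw, by rw [h2]; exact hw⟩

end Run7.h81.LW
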